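import Pool.Agent.L7h10.AB.Stm

/-! Parts DESC and DESD of project AB (helper10). -/

set_option autoImplicit false

namespace Pool.Agent.L7h76.AB
open Polynomial Pool.Agent.L7h10.AB

theorem ne_of (M : Type) [Field M] (p : ℕ) [CharP M p] (hp : 5 < p) :
    (2 : M) ≠ 0 ∧ (3 : M) ≠ 0 ∧ (5 : M) ≠ 0 := by
  have key : ∀ n : ℕ, 0 < n → n ≤ 5 → (n : M) ≠ 0 := by
    intro n hn hn5 h
    have := Nat.le_of_dvd hn ((CharP.cast_eq_zero_iff M p n).1 h)
    omega
  refine ⟨?_, ?_, ?_⟩
  · exact_mod_cast key 2 (by norm_num) (by norm_num)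
  · exact_mod_cast key 3 (by norm_num) (by norm_num)
  · exact_mod_cast key 5 (by norm_num) (by norm_num)

/-- the Frobenius of the algebraic closure; its fixed points are in `K` -/
theorem frob (hFIX : S_FIX) (K : Type) [Field K] [Finite K] :
    ∃ F : AlgebraicClosure K →ₐ[K] AlgebraicClosure K,
      ∀ x, F x = x → ∃ y : K, algebraMap K (AlgebraicClosure K) y = x := by
  haveI := Fintype.ofFinite K
  refine ⟨FiniteField.frobeniusAlgHom K (AlgebraicClosure K), ?_⟩
  intro x hx
  refine hFIX K x ?_
  rw [Nat.card_eq_fintype_card]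
  simpa using hx

theorem s_DESC : S_DESC := by
  intro hCOL hINJ hFIX K _ _ p _ hp b c d
  haveI : CharP (AlgebraicClosure K) p :=
    charP_of_injective_algebraMap (algebraMap K (AlgebraicClosure K)).injective p
  obtain ⟨h2, h3, h5⟩ := ne_of (AlgebraicClosure K) p hp
  obtain ⟨F, hF⟩ := frob hFIX K
  rw [hCOL (AlgebraicClosure K) h2 h3 h5]
  have inj := (algebraMap K (AlgebraicClosure K)).injective
  constructor
  · rintro ⟨m, e, ⟨v1, v2, v3⟩, f1, f2, f3⟩
    have g : Phi (F m) (F e) (algebraMap K (AlgebraicClosure K) b)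
        (algebraMap K (AlgebraicClosure K) c) (algebraMap K (AlgebraicClosure K) d) := by
      refine ⟨?_, ?_, ?_⟩
      · have := congrArg F f1
        rw [AlgHom.commutes] at this
        rw [this]; simp only [map_mul, map_add, map_sub, map_neg, map_pow, map_ofNat]
      · have := congrArg F f2
        rw [AlgHom.commutes] at this
        rw [this]; simp only [map_mul, map_add, map_sub, map_neg, map_pow, map_ofNat]
      · have := congrArg F f3
        rw [AlgHom.commutes] at this
        rw [this]; simp only [map_mul, map_add, map_sub, map_neg, map_pow, map_ofNat]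
    rcases (hINJ (AlgebraicClosure K) h2 h3 h5).1 m e (F m) (F e) _ _ _ ⟨f1, f2, f3⟩ g with
      ⟨hm, he⟩ | ⟨hm, he, he'⟩
    · obtain ⟨m₀, rfl⟩ := hF m hm.symm
      obtain ⟨e₀, rfl⟩ := hF e he.symm
      have f1' : b = -6 * (m₀ ^ 2 + e₀) := by
        apply inj; rw [f1]; simp only [map_mul, map_add, map_sub, map_neg, map_pow, map_ofNat]
      have f2' : c = 8 * m₀ * (m₀ ^ 2 - e₀) := by
        apply inj; rw [f2]; simp only [map_mul, map_add, map_sub, map_neg, map_pow, map_ofNat]
      have f3' : d = -(m₀ ^ 2 - 5 * e₀) * (3 * m₀ ^ 2 + e₀) := by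
        apply inj; rw [f3]; simp only [map_mul, map_add, map_sub, map_neg, map_pow, map_ofNat]
      have v1' : e₀ ≠ 0 := by
        intro h; apply v1; rw [h]; simp
      by_cases hme : e₀ = m₀ ^ 2
      · right
        refine ⟨e₀, v1', ?_, ?_, ?_⟩
        · rw [f1', ← hme]; ring
        · rw [f2', ← hme]; ring
        · rw [f3', ← hme]; ring
      · left
        refine ⟨m₀, e₀, ⟨v1', ?_, ?_⟩, hme, f1', f2', f3'⟩
        · intro h; apply v2; rw [h]; simp only [map_mul, map_neg, map_pow, map_ofNat]
        · intro h; apply v3; rw [h]; simp only [map_mul, map_neg, map_pow, map_ofNat]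
    · obtain ⟨e₀, rfl⟩ := hF e (he'.trans he.symm)
      right
      refine ⟨e₀, ?_, ?_, ?_, ?_⟩
      · intro h; apply v1; rw [h]; simp
      · apply inj; rw [f1, ← he]; simp only [map_mul, map_neg, map_ofNat]; ring
      · apply inj; rw [f2, ← he]; simp only [map_zero]; ring
      · apply inj; rw [f3, ← he]; simp only [map_mul, map_pow, map_ofNat]; ring
  · rintro (⟨m, e, ⟨v1, v2, v3⟩, -, f1, f2, f3⟩ | ⟨e, v1, f1, f2, f3⟩)
    · refine ⟨algebraMap K _ m, algebraMap K _ e, ⟨?_, ?_, ?_⟩, ?_, ?_, ?_⟩
      · intro h; exact v1 (inj (h.trans (map_zero _).symm))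
      · intro h; apply v2; apply inj; rw [h]; simp only [map_mul, map_neg, map_pow, map_ofNat]
      · intro h; apply v3; apply inj; rw [h]; simp only [map_mul, map_neg, map_pow, map_ofNat]
      · rw [f1]; simp only [map_mul, map_add, map_sub, map_neg, map_pow, map_ofNat]
      · rw [f2]; simp only [map_mul, map_add, map_sub, map_neg, map_pow, map_ofNat]
      · rw [f3]; simp only [map_mul, map_add, map_sub, map_neg, map_pow, map_ofNat]
    · obtain ⟨m, hm⟩ := IsAlgClosed.exists_pow_nat_eq (algebraMap K (AlgebraicClosure K) e)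
        (n := 2) (by norm_num)
      have hm0 : m ≠ 0 := by
        rintro rfl
        apply v1; apply inj; rw [← hm]; simp
      have he0 : algebraMap K (AlgebraicClosure K) e ≠ 0 := by
        rw [← hm]; exact pow_ne_zero 2 hm0
      refine ⟨m, algebraMap K _ e, ⟨he0, ?_, ?_⟩, ?_, ?_, ?_⟩
      · rw [← hm]
        intro h
        have h' : (5 : AlgebraicClosure K) * m ^ 2 = 0 := by linear_combination h
        rcases mul_eq_zero.1 h' with h'' | h''
        · exact h5 h''
        · exact hm0 (pow_eq_zero_iff (by norm_num) |>.1 h'')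
      · rw [← hm]
        intro h
        have h' : (2 : AlgebraicClosure K) * 2 * m ^ 2 = 0 := by linear_combination -h
        rcases mul_eq_zero.1 h' with h'' | h''
        · rcases mul_eq_zero.1 h'' with h''' | h'''
          · exact h2 h'''
          · exact h2 h'''
        · exact hm0 (pow_eq_zero_iff (by norm_num) |>.1 h'')
      · rw [f1]; simp only [map_mul, map_neg, map_ofNat]; rw [← hm]; ring
      · rw [f2]; simp only [map_zero]; rw [← hm]; ring
      · rw [f3]; simp only [map_mul, map_pow, map_ofNat]; rw [← hm]; ring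

end Pool.Agent.L7h76.AB
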